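import Pool.Agent.D0H61.AB.Stm

set_option autoImplicit false

/-!
Module 6 (BND) of the project AB: the number of the pairwise coprime triples with small radical.
-/

namespace Pool.Agent.D0H13.AB

open Filter Topology Finset
open Pool.Agent.D0H61.AB

theorem one_sub_exp (x : ℝ) (hx : 0 < x) : 1 / (1 - Real.exp (-x)) ≤ 1 / x + 1 := by
  have h1 : Real.exp (-x) ≤ 1 / (1 + x) := by
    rw [Real.exp_neg, inv_eq_one_div]
    exact one_div_le_one_div_of_le (by linarith) (by linarith [Real.add_one_le_exp x])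
  have h2 : x / (1 + x) ≤ 1 - Real.exp (-x) := by
    have h3 : x / (1 + x) = 1 - 1 / (1 + x) := by
      field_simp
      ring
    linarith
  calc 1 / (1 - Real.exp (-x)) ≤ 1 / (x / (1 + x)) := one_div_le_one_div_of_le (by positivity) h2
    _ = 1 / x + 1 := by
      field_simp

theorem factor (p : ℕ) (hp : p.Prime) (σ : ℝ) (hσ : 0 < σ) :
    1 + 1 / ((p : ℝ) * (1 - (p : ℝ) ^ (-σ))) ≤
      (1 + 1 / ((p : ℝ) * (σ * Real.log p))) * (1 + 1 / (p : ℝ)) := by
  have hp1 : (1 : ℝ) < p := by exact_mod_cast hp.one_lt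
  have hp0 : (0 : ℝ) < p := by linarith
  have hl : 0 < Real.log p := Real.log_pos hp1
  have hx : 0 < σ * Real.log p := mul_pos hσ hl
  have h1 := one_sub_exp _ hx
  have h2 : (p : ℝ) ^ (-σ) = Real.exp (-(σ * Real.log p)) := by
    rw [Real.rpow_def_of_pos hp0]
    congr 1
    ring
  rw [h2]
  have h3 : 1 / ((p : ℝ) * (1 - Real.exp (-(σ * Real.log p)))) =
      1 / (p : ℝ) * (1 / (1 - Real.exp (-(σ * Real.log p)))) := by
    rw [one_div_mul_one_div]
  have h4 : 1 / ((p : ℝ) * (σ * Real.log p)) = 1 / (p : ℝ) * (1 / (σ * Real.log p)) := by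
    rw [one_div_mul_one_div]
  rw [h3, h4]
  have h5 : 0 < 1 / (p : ℝ) := by positivity
  have h6 : 0 < 1 / (σ * Real.log p) := by positivity
  have h7 := mul_le_mul_of_nonneg_left h1 h5.le
  have h8 := mul_pos h5 (mul_pos h5 h6)
  nlinarith

theorem t_BND (hPR : S_PR) (hM3 : S_M3) (hEUL : S_EUL) (hCNT : S_CNT) : S_BND := by
  intro ε K hε hK
  obtain ⟨C, D, hC, hD, hM⟩ := hM3
  obtain ⟨s, hsdef⟩ : ∃ s : ℝ, s = Real.sqrt 3 := ⟨_, rfl⟩
  have hs : 0 < s := by rw [hsdef]; positivity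
  have hs2 : s * s = 3 := by rw [hsdef]; exact Real.mul_self_sqrt (by norm_num)
  obtain ⟨σ₀, hσ0, hσ1, hP⟩ := hPR (ε / (4 * s)) (by positivity)
  obtain ⟨A, hA⟩ : ∃ A : ℝ, A = |K * s + 3 * Real.log C| := ⟨_, rfl⟩
  have hA0 : 0 ≤ A := by rw [hA]; exact abs_nonneg _
  have hlog : Tendsto (fun N : ℕ => Real.log (Real.log (N : ℝ))) atTop atTop :=
    (Real.tendsto_log_atTop.comp Real.tendsto_log_atTop).comp tendsto_natCast_atTop_atTop
  have hev : ∀ᶠ N : ℕ in atTop, 3 ≤ N ∧ 3 ≤ Real.log (Real.log (N : ℝ)) ∧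
      3 / (σ₀ * σ₀) ≤ Real.log (Real.log (N : ℝ)) ∧
      96 * (A + 3 * D) / ε ≤ Real.log (Real.log (N : ℝ)) :=
    (eventually_ge_atTop 3).and ((hlog.eventually_ge_atTop 3).and
      ((hlog.eventually_ge_atTop _).and (hlog.eventually_ge_atTop _)))
  obtain ⟨N₀, hN₀⟩ := eventually_atTop.1 hev
  refine ⟨N₀, fun N hN Y hY => ?_⟩
  obtain ⟨hN3, hu3, huσ, huA⟩ := hN₀ N hN
  rw [← hsdef]
  have hNR : (3 : ℝ) ≤ (N : ℝ) := by exact_mod_cast hN3
  have hN0 : (0 : ℝ) < (N : ℝ) := by linarith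
  obtain ⟨L, hL⟩ : ∃ L : ℝ, L = Real.log (N : ℝ) := ⟨_, rfl⟩
  obtain ⟨u, hu⟩ : ∃ u : ℝ, u = Real.log L := ⟨_, rfl⟩
  have hL0 : 0 < L := by rw [hL]; exact Real.log_pos (by linarith)
  rw [← hL, ← hu] at hu3 huσ huA
  have hu0 : 0 < u := by linarith
  have hLu : L = Real.exp u := by rw [hu, Real.exp_log hL0]
  obtain ⟨v, hv⟩ : ∃ v : ℝ, v = V (N : ℝ) := ⟨_, rfl⟩
  have hv' : v = Real.sqrt (L / u) := by
    rw [hv]
    show Real.sqrt (Real.log (N : ℝ) / Real.log (Real.log (N : ℝ))) = _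
    rw [← hL, ← hu]
  have hv0 : 0 < v := by rw [hv']; exact Real.sqrt_pos.2 (div_pos hL0 hu0)
  have hv2 : v * v * u = L := by
    rw [hv', Real.mul_self_sqrt (by positivity)]
    field_simp
  rw [← hv]
  -- the choice of `σ`
  obtain ⟨σ, hσ⟩ : ∃ σ : ℝ, σ = s / (v * u) := ⟨_, rfl⟩
  have hσp : 0 < σ := by rw [hσ]; positivity
  have hσvu : σ * (v * u) = s := by
    rw [hσ]
    field_simp
  have hσL : σ * L = s * v := by
    rw [← hv2, ← hσvu]
    ring
  have hσL2 : σ * σ * L * u = 3 := by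
    have h1 : σ * σ * L * u = (σ * (v * u)) * (σ * (v * u)) := by
      rw [← hv2]
      ring
    rw [h1, hσvu, hs2]
  have hexpu : u ≤ L := by
    rw [hLu]
    linarith [Real.add_one_le_exp u]
  have hσσ0 : σ ≤ σ₀ := by
    have h1 : σ * σ * (L * u) = 3 := by linarith [hσL2, mul_assoc (σ * σ) L u]
    have h2 : 3 ≤ σ₀ * σ₀ * u := by
      rw [div_le_iff₀ (by positivity)] at huσ
      linarith
    by_contra hcon
    have hcon : σ₀ < σ := not_le.1 hcon
    have h3 : σ₀ * σ₀ < σ * σ := mul_self_lt_mul_self hσ0.le hcon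
    have h4 : σ₀ * σ₀ * u < σ * σ * (L * u) := by
      have h5 : σ₀ * σ₀ * u < σ * σ * u := mul_lt_mul_of_pos_right h3 hu0
      have h6 : σ * σ * u ≤ σ * σ * (L * u) := by
        have h7 : u ≤ L * u := by
          have h8 : 1 * u ≤ L * u := mul_le_mul_of_nonneg_right (by linarith) hu0.le
          linarith
        exact mul_le_mul_of_nonneg_left h7 (by positivity)
      linarith
    linarith
  have hσ1' : σ ≤ 1 := by linarith
  have hsqL : Real.sqrt L * Real.sqrt L = L := Real.mul_self_sqrt hL0.le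
  have hsqL0 : 0 < Real.sqrt L := Real.sqrt_pos.2 hL0
  have hσsq : σ * Real.sqrt L ≤ s := by
    by_contra hcon
    have hcon : s < σ * Real.sqrt L := not_le.1 hcon
    have h1 : s * s < (σ * Real.sqrt L) * (σ * Real.sqrt L) := mul_self_lt_mul_self hs.le hcon
    have h2 : (σ * Real.sqrt L) * (σ * Real.sqrt L) = σ * σ * L := by
      calc (σ * Real.sqrt L) * (σ * Real.sqrt L) = σ * σ * (Real.sqrt L * Real.sqrt L) := by ring
        _ = σ * σ * L := by rw [hsqL]
    rw [h2, hs2] at h1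
    have h3 : 3 * u < σ * σ * L * u := mul_lt_mul_of_pos_right h1 hu0
    linarith
  -- `log (1 / σ) ≥ u / 2`
  have hlogσ : u / 2 ≤ Real.log (1 / σ) := by
    have h1 : Real.log (Real.sqrt L) = u / 2 := by
      rw [Real.log_sqrt hL0.le, ← hu]
    rw [← h1]
    apply Real.log_le_log hsqL0
    rw [le_div_iff₀ hσp]
    have h2 : (Real.sqrt L * σ) * (Real.sqrt L * σ) ≤ 1 * 1 := by
      have h3 : (Real.sqrt L * σ) * (Real.sqrt L * σ) = σ * σ * L := by
        calc (Real.sqrt L * σ) * (Real.sqrt L * σ) = σ * σ * (Real.sqrt L * Real.sqrt L) := by ring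
          _ = σ * σ * L := by rw [hsqL]
      rw [h3]
      have h4 : σ * σ * L * 3 ≤ σ * σ * L * u := mul_le_mul_of_nonneg_left hu3 (by positivity)
      linarith
    by_contra hcon
    have hcon : 1 < Real.sqrt L * σ := not_le.1 hcon
    have h5 := mul_self_lt_mul_self (by norm_num : (0 : ℝ) ≤ 1) hcon
    linarith
  have hlogσ0 : 0 < Real.log (1 / σ) := by linarith
  -- the sum `F`
  obtain ⟨F, hF⟩ : ∃ F : ℝ, F = ∑ n ∈ Icc 1 N, (n : ℝ) ^ (-σ) * (rad n : ℝ) ^ (σ - 1) := ⟨_, rfl⟩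
  have hF0 : 0 ≤ F := by
    rw [hF]
    exact Finset.sum_nonneg fun n _ => by positivity
  have hF1 : F ≤ ∏ p ∈ (Icc 1 N).filter Nat.Prime, (1 + 1 / ((p : ℝ) * (1 - (p : ℝ) ^ (-σ)))) := by
    rw [hF]
    exact hEUL σ hσp hσ1' N
  have hF2 : ∏ p ∈ (Icc 1 N).filter Nat.Prime, (1 + 1 / ((p : ℝ) * (1 - (p : ℝ) ^ (-σ)))) ≤
      (∏ p ∈ (Icc 1 N).filter Nat.Prime, (1 + 1 / ((p : ℝ) * (σ * Real.log p)))) *
        ∏ p ∈ (Icc 1 N).filter Nat.Prime, (1 + 1 / (p : ℝ)) := by
    rw [← Finset.prod_mul_distrib]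
    apply Finset.prod_le_prod
    · intro p hp
      have hp' : p.Prime := (Finset.mem_filter.1 hp).2
      have hp1 : (1 : ℝ) < p := by exact_mod_cast hp'.one_lt
      have h1 : (p : ℝ) ^ (-σ) ≤ 1 := Real.rpow_le_one_of_one_le_of_nonpos hp1.le (by linarith)
      have h2 : 0 ≤ (p : ℝ) * (1 - (p : ℝ) ^ (-σ)) := mul_nonneg (by linarith) (by linarith)
      have h3 : 0 ≤ 1 / ((p : ℝ) * (1 - (p : ℝ) ^ (-σ))) := by positivity
      linarith
    · intro p hp
      exact factor p (Finset.mem_filter.1 hp).2 σ hσp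
  have hP1 := hP σ hσp hσσ0 ((Icc 1 N).filter Nat.Prime) (fun p hp => (Finset.mem_filter.1 hp).2)
  have hM1 := hM N (by omega)
  rw [← hL] at hM1
  have hLD : L ^ D = Real.exp (D * u) := by
    rw [Real.rpow_def_of_pos hL0, ← hu]
    congr 1
    ring
  have hCe : C = Real.exp (Real.log C) := (Real.exp_log hC).symm
  have hF3 : F ≤ Real.exp (2 * (1 + ε / (4 * s)) * v / s) * (Real.exp (Real.log C) * Real.exp (D * u)) := by
    refine hF1.trans (hF2.trans ?_)
    apply mul_le_mul _ _ (Finset.prod_nonneg fun p _ => by positivity) (Real.exp_pos _).le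
    · refine hP1.trans (Real.exp_le_exp.2 ?_)
      rw [div_le_iff₀ (by positivity)]
      have h1 : 2 * (1 + ε / (4 * s)) * v / s * (σ * Real.log (1 / σ)) =
          (1 + ε / (4 * s)) * (2 * v * σ * Real.log (1 / σ) / s) := by ring
      rw [h1]
      have h2 : 1 ≤ 2 * v * σ * Real.log (1 / σ) / s := by
        rw [le_div_iff₀ hs]
        have h3 : 2 * v * σ * (u / 2) ≤ 2 * v * σ * Real.log (1 / σ) :=
          mul_le_mul_of_nonneg_left hlogσ (by positivity)
        have h4 : 2 * v * σ * (u / 2) = s := by rw [← hσvu]; ring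
        linarith
      have h5 : 0 ≤ 1 + ε / (4 * s) := by positivity
      calc 1 + ε / (4 * s) = (1 + ε / (4 * s)) * 1 := by ring
        _ ≤ _ := mul_le_mul_of_nonneg_left h2 h5
    · rw [← hCe, ← hLD]
      exact hM1
  have hF4 : F ≤ Real.exp (2 * (1 + ε / (4 * s)) * v / s + Real.log C + D * u) := by
    rw [Real.exp_add, Real.exp_add, mul_assoc]
    exact hF3
  have hF5 : F ^ 3 ≤ Real.exp (3 * (2 * (1 + ε / (4 * s)) * v / s + Real.log C + D * u)) := by
    have h1 := pow_le_pow_left₀ hF0 hF4 3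
    rw [← Real.exp_nat_mul] at h1
    exact_mod_cast h1
  -- `Y`
  have hY0 : 0 < Y := lt_of_lt_of_le (mul_pos hN0 (Real.exp_pos _)) hY
  obtain ⟨y, hy⟩ : ∃ y : ℝ, y = Real.log Y := ⟨_, rfl⟩
  have hYy : Y = Real.exp y := by rw [hy, Real.exp_log hY0]
  have hNL : (N : ℝ) = Real.exp L := by rw [hL, Real.exp_log hN0]
  have hyL : L - K * Real.sqrt L ≤ y := by
    rw [← Real.exp_le_exp, ← hYy]
    refine le_trans (le_of_eq ?_) hY
    rw [← hL, sub_eq_add_neg, Real.exp_add, ← hNL, neg_mul]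
  have hcount := hCNT σ hσp hσ1' N Y hY0
  rw [← hF] at hcount
  refine hcount.trans ?_
  have h1 : Y ^ (1 - σ) = Real.exp (y * (1 - σ)) := by
    rw [Real.rpow_def_of_pos hY0, ← hy]
  have h2 : (N : ℝ) ^ (3 * σ) = Real.exp (L * (3 * σ)) := by
    rw [Real.rpow_def_of_pos hN0, ← hL]
  rw [h1, h2, ← Real.exp_add]
  refine (mul_le_mul_of_nonneg_left hF5 (Real.exp_pos _).le).trans ?_
  rw [← Real.exp_add, hYy, ← Real.exp_add, Real.exp_le_exp]
  -- the comparison of the exponents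
  have hsv : 3 * (2 * (1 + ε / (4 * s)) * v / s) = 2 * s * v + ε / 2 * v := by
    have h3 : (3 : ℝ) = s * s := hs2.symm
    rw [h3]
    field_simp
    ring
  have hy1 : σ * (L - K * Real.sqrt L) ≤ σ * y := mul_le_mul_of_nonneg_left hyL hσp.le
  have hK1 : K * (σ * Real.sqrt L) ≤ K * s := mul_le_mul_of_nonneg_left hσsq hK
  have hAu : K * s + 3 * Real.log C + 3 * D * u ≤ ε / 2 * v := by
    have h3 : K * s + 3 * Real.log C ≤ A := by rw [hA]; exact le_abs_self _
    have h4 : A + 3 * D * u ≤ (A + 3 * D) * u := by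
      have h4' : A * 1 ≤ A * u := mul_le_mul_of_nonneg_left (by linarith) hA0
      linarith
    have h5 : 96 * (A + 3 * D) ≤ u * ε := by
      rwa [div_le_iff₀ hε] at huA
    -- `v ≥ u ^ 2 / 48`
    have h6 : u * u / 48 ≤ v := by
      have h7 : (u / 2) ^ 3 / (Nat.factorial 3 : ℕ) ≤ Real.exp (u / 2) :=
        Real.pow_div_factorial_le_exp (u / 2) (by positivity) 3
      have h8 : Real.exp (u / 2) = Real.sqrt L := by
        rw [← Real.exp_log hsqL0, Real.log_sqrt hL0.le, ← hu]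
      rw [h8] at h7
      have h9 : ((Nat.factorial 3 : ℕ) : ℝ) = 6 := by norm_num [Nat.factorial]
      rw [h9] at h7
      have h10 : Real.sqrt L ≤ v * u := by
        by_contra hcon
        have hcon : v * u < Real.sqrt L := not_le.1 hcon
        have h11 := mul_self_lt_mul_self (by positivity) hcon
        rw [hsqL] at h11
        have h12 : v * u * (v * u) = L * u := by rw [← hv2]; ring
        rw [h12] at h11
        have h12' : L * 1 ≤ L * u := mul_le_mul_of_nonneg_left (by linarith) hL0.le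
        linarith
      have h13 : u * (u * u / 48) ≤ u * v := by
        calc u * (u * u / 48) = (u / 2) ^ 3 / 6 := by ring
          _ ≤ Real.sqrt L := h7
          _ ≤ v * u := h10
          _ = u * v := by ring
      exact le_of_mul_le_mul_left h13 hu0
    have h14 : (A + 3 * D) * u ≤ ε / 2 * (u * u / 48) := by
      have h15 : 96 * (A + 3 * D) * u ≤ u * ε * u := mul_le_mul_of_nonneg_right h5 hu0.le
      linarith
    have h16 : ε / 2 * (u * u / 48) ≤ ε / 2 * v := mul_le_mul_of_nonneg_left h6 (by positivity)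
    linarith
  have h20 : y * (1 - σ) + L * (3 * σ) + 3 * (2 * (1 + ε / (4 * s)) * v / s + Real.log C + D * u) =
      y - σ * y + 3 * (σ * L) + 3 * (2 * (1 + ε / (4 * s)) * v / s) + 3 * Real.log C + 3 * D * u := by
    ring
  rw [h20, hsv, hσL]
  have h21 : σ * (L - K * Real.sqrt L) = s * v - K * (σ * Real.sqrt L) := by
    rw [← hσL]
    ring
  rw [h21] at hy1
  linarith

end Pool.Agent.D0H13.AB
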